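import Pool.Agent.FBM.G.StmtS
import Pool.Agent.FBM.G.S.CO1

/-!
# FBM block G2, module CO2: pieces at junctions with the free edge on the left
-/

open Set Metric MeasureTheory Filter Topology
open FBM.F (GoodD PosP FIn)

namespace Pool.Agent.FBM
namespace G2

namespace CO2b

/-- the rotation -/
noncomputable def ro (w : ℂ) : ℂ := -Complex.I * w

theorem ro_re (w : ℂ) : (ro w).re = w.im := by simp [ro]

theorem ro_im (w : ℂ) : (ro w).im = -w.re := by simp [ro]

theorem ro_norm (w : ℂ) : ‖ro w‖ = ‖w‖ := by simp [ro]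

theorem ro_cont : Continuous ro := by
  unfold ro
  fun_prop

theorem ro_inj : Function.Injective ro := by
  intro a b h
  apply Complex.ext
  · have := congrArg Complex.im h
    rw [ro_im, ro_im] at this
    linarith
  · have := congrArg Complex.re h
    rwa [ro_re, ro_re] at this

theorem ro_surj (z : ℂ) : ro (Complex.I * z) = z := by
  apply Complex.ext
  · rw [ro_re]; simp
  · rw [ro_im]; simp

theorem ro_compact {K : Set ℂ} (h : IsCompact K) : IsCompact (ro ⁻¹' K) := by
  have e : ro ⁻¹' K = (fun z => Complex.I * z) '' K := by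
    ext w
    constructor
    · intro hw
      refine ⟨ro w, hw, ?_⟩
      apply ro_inj
      rw [ro_surj]
    · rintro ⟨z, hz, rfl⟩
      change ro (Complex.I * z) ∈ K
      rw [ro_surj]
      exact hz
  rw [e]
  exact h.image (by fun_prop)

theorem ro_deriv (s : ℝ) (g : ℂ → ℂ) (w : ℂ) (hg : DifferentiableAt ℂ g (ro w)) :
    deriv (fun z => (s : ℂ) * g (ro z)) w = -Complex.I * ((s : ℂ) * deriv g (ro w)) := by
  have h1 : HasDerivAt ro (-Complex.I * 1) w := (hasDerivAt_id w).const_mul _
  have h2 := (hg.hasDerivAt.comp w h1).const_mul (s : ℂ)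
  have h3 : deriv (fun z => (s : ℂ) * g (ro z)) w = (s : ℂ) * (deriv g (ro w) * (-Complex.I * 1)) :=
    h2.deriv
  rw [h3]
  ring

theorem null_axes (s : Set ℂ) (h : ∀ w ∈ s, w.re = 0 ∨ w.im = 0) : volume s = 0 := by
  have h1 : volume {w : ℂ | w.re = 0} = 0 := by
    have := Measure.addHaar_submodule (volume : Measure ℂ) (LinearMap.ker Complex.reLm) (by
      intro h
      have : (1 : ℂ) ∈ LinearMap.ker Complex.reLm := by rw [h]; trivial
      simp at this)
    exact this
  have h2 : volume {w : ℂ | w.im = 0} = 0 := by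
    have := Measure.addHaar_submodule (volume : Measure ℂ) (LinearMap.ker Complex.imLm) (by
      intro h
      have : (Complex.I : ℂ) ∈ LinearMap.ker Complex.imLm := by rw [h]; trivial
      simp at this)
    exact this
  refine measure_mono_null (fun w hw => ?_) (measure_union_null h1 h2)
  exact h w hw

theorem sph {G : Fin 3 → ℂ → ℂ} {ρ : ℝ} {i : Fin 3} (hR : OnReal G ρ (.W i)) (hI : OnImag G ρ .H)
    {x : ℝ} (hx : |x| < ρ) : ∑ k, (G k ((x : ℂ) * Complex.I)).re ^ 2 = 1 := by
  rcases le_total 0 x with h | h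
  · exact hI x h (by rwa [abs_of_nonneg h] at hx)
  · have h1 := hI (-x) (by linarith) (by rwa [abs_of_nonpos h] at hx)
    rw [← h1]
    refine Finset.sum_congr rfl fun k _ => ?_
    have h2 := hR k (((-x : ℝ) : ℂ) * Complex.I) (by
      rw [norm_mul, Complex.norm_I, mul_one, Complex.norm_real, Real.norm_eq_abs, abs_neg]
      exact hx)
    have h3 : (starRingEnd ℂ) (((-x : ℝ) : ℂ) * Complex.I) = (x : ℂ) * Complex.I := by
      rw [map_mul, Complex.conj_ofReal, Complex.conj_I]
      push_cast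
      ring
    rw [h3] at h2
    rw [h2]
    split_ifs <;> ring

end CO2b

open CO1 CO2b in
theorem t_CO2b (hSGC : Stmt_SGC) (hCNC : Stmt_CNC) (hFLD : Stmt_FLD) (hFL0 : Stmt_FL0) :
    Stmt_CO2 := by
  intro D X lam T hG θ i hR hL p hp hp2
  have hne : Edge.W i ≠ Edge.H := by simp
  obtain ⟨ρ, G, hC, -, hPI, hd⟩ := hG.corP θ (.W i) .H hR hL hne
  obtain ⟨r1, hr10, hr1ρ, hSg⟩ := hSGC D X lam T hG θ (.W i) .H ρ G hR hL hne hC
  obtain ⟨hconf, r2, hr20, hr2ρ, himm⟩ := hCNC D X lam T hG θ (.W i) .H ρ G hC hd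
  set r := min r1 r2 with hr
  have hr0 : 0 < r := lt_min hr10 hr20
  have hrρ : r < ρ := (min_le_left _ _).trans_lt hr1ρ
  have hr1 : r < 1 := hrρ.trans hC.pos.2
  have hS := hSg r hr0 (min_le_left _ _)
  obtain ⟨s, hs, hs0⟩ := hFL0 X θ (.W i) (some .H) r G hr0 hr1 hS p hp hp2
  obtain ⟨hKc, hmem, hcont, hinj, ⟨U, hUo, hUi⟩, hnull⟩ :=
    hFLD X θ (.W i) (some .H) r G s hr0 hr1 (by simp) hS hs
  have hdiff : ∀ k, ∀ w : ℂ, ‖w‖ < ρ → DifferentiableAt ℂ (G k) (ro w) := by
    intro k w hw
    exact (hC.an k).differentiableAt (isOpen_ball.mem_nhds (by simpa [ro_norm] using hw))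
  have hmaps : MapsTo ro (ro ⁻¹' KK (.W i) (some .H) r) (KK (.W i) (some .H) r) := fun w hw => hw
  refine ⟨{ c := 0, K := ro ⁻¹' KK (.W i) (some .H) r, V := ro ⁻¹' VV (.W i) (some .H) r,
            O := ball 0 r, F := fun w => FF θ (.W i) (some .H) s G (ro w),
            G := fun k z => (s k : ℂ) * G k (ro z), U := U,
            Kc := ro_compact hKc, Kh := ?_, VK := fun w hw => ⟨hw.1.le, hw.2⟩,
            Oo := isOpen_ball, VO := ?_, mem := fun w hw => hmem _ hw,
            cont := hcont.comp ro_cont.continuousOn hmaps,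
            inj := fun a ha b hb hab => ro_inj (hinj ha hb hab), Uo := hUo, img := ?_,
            an := ?_, conf := ?_, imm := ?_, eq := ?_, bd := ?_ }, ⟨0, ?_, ?_⟩, ?_⟩
  · intro w hw
    have := hw.2.2 rfl
    rw [ro_re] at this
    simpa using this
  · ext w
    constructor
    · intro hw
      refine ⟨by simpa [ro_norm] using hw.1, ?_⟩
      have := hw.2.2 rfl
      rw [ro_re] at this
      simpa using this
    · rintro ⟨h1, h2⟩
      refine ⟨by simpa [ro_norm] using h1, fun h => ?_, fun _ => ?_⟩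
      · simp at h
      · rw [ro_re]
        simpa using h2
  · rw [← hUi]
    ext q
    constructor
    · rintro ⟨w, hw, rfl⟩
      exact ⟨ro w, hw, rfl⟩
    · rintro ⟨z, hz, rfl⟩
      refine ⟨Complex.I * z, ?_, ?_⟩
      · change ro (Complex.I * z) ∈ VV (.W i) (some .H) r
        rw [ro_surj]
        exact hz
      · change FF θ (.W i) (some .H) s G (ro (Complex.I * z)) = _
        rw [ro_surj]
  · intro k
    have h1 : DifferentiableOn ℂ (G k) (ball 0 r) := (hC.an k).mono (ball_subset_ball hrρ.le)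
    have h2 : DifferentiableOn ℂ ro (ball 0 r) := by
      unfold ro
      fun_prop
    exact (h1.comp h2 fun w hw => by simpa [ro_norm] using hw).const_mul _
  · intro w hw
    have hw1 : ‖w‖ < ρ := by
      have := hw.1
      rw [ro_norm] at this
      exact this.trans hrρ
    have e : ∀ k, deriv (fun z => (s k : ℂ) * G k (ro z)) w ^ 2 = - (deriv (G k) (ro w)) ^ 2 := by
      intro k
      rw [ro_deriv _ _ _ (hdiff k w hw1), mul_pow, mul_pow, sq_oneC (hs k), neg_sq, Complex.I_sq]
      ring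
    simp only [e, Finset.sum_neg_distrib, neg_eq_zero]
    exact hconf _ (by rw [ro_norm]; exact hw1)
  · intro w hw
    have hw1 : ‖w‖ < r := by
      have := hw.1
      rwa [ro_norm] at this
    obtain ⟨k, hk⟩ := himm (ro w) (by rw [ro_norm]; exact hw1.le.trans (min_le_right _ _))
    refine ⟨k, ?_⟩
    change deriv (fun z => (s k : ℂ) * G k (ro z)) w ≠ 0
    rw [ro_deriv _ _ _ (hdiff k w (hw1.trans hrρ))]
    exact mul_ne_zero (neg_ne_zero.2 Complex.I_ne_zero) (mul_ne_zero (ne_zeroC (hs k)) hk)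
  · intro w hw k
    change s k * (G k (ro w)).re = ((s k : ℂ) * G k (ro w)).re
    rw [Complex.re_ofReal_mul]
  · intro w hw him
    have hw1 : ‖w‖ < ρ := by
      have := hw.1
      rw [ro_norm] at this
      exact this.trans hrρ
    have him0 : w.im = 0 := by simpa using him
    have hx : ro w = ((-w.re : ℝ) : ℂ) * Complex.I := by
      apply Complex.ext
      · rw [ro_re, him0]; simp
      · rw [ro_im]; simp
    have hxa : |(-w.re : ℝ)| < ρ := by
      rw [abs_neg]
      exact (Complex.abs_re_le_norm w).trans_lt hw1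
    refine ⟨?_, ?_⟩
    · simp only [Complex.re_ofReal_mul, mul_pow, sq_one (hs _), one_mul, hx]
      exact sph hC.bdR hC.bdL hxa
    · obtain ⟨κ, hκ⟩ := hPI rfl (-w.re) hxa
      refine ⟨-κ, fun k => ?_⟩
      change (deriv (fun z => (s k : ℂ) * G k (ro z)) w).im = -κ * ((s k : ℂ) * G k (ro w)).re
      rw [ro_deriv _ _ _ (hdiff k w hw1), Complex.re_ofReal_mul, hx]
      have e1 : ∀ a : ℂ, (-Complex.I * a).im = -a.re := fun a => by simp
      rw [e1, Complex.re_ofReal_mul, hκ k]
      ring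
  · change ro 0 ∈ VV (.W i) (some .H) r
    have : ro 0 = 0 := by simp [ro]
    rw [this]
    refine ⟨by simpa using hr0, fun h => ?_, fun _ => le_of_eq Complex.zero_re.symm⟩
    simp at h
  · change FF θ (.W i) (some .H) s G (ro 0) = p
    have : ro 0 = 0 := by simp [ro]
    rw [this]
    exact hs0
  · have hmp : MeasurePreserving ro volume volume := by
      have := (LinearIsometryEquiv.measurePreserving
        ((LinearIsometryEquiv.mk
          (LinearEquiv.ofBijective (LinearMap.mulLeft ℝ (-Complex.I)) ⟨fun a b h => ro_inj h,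
            fun z => ⟨Complex.I * z, ro_surj z⟩⟩) fun w => ro_norm w) : ℂ ≃ₗᵢ[ℝ] ℂ))
      exact this
    have e : {w | w ∈ ro ⁻¹' VV (.W i) (some .H) r ∧ ‖(FF θ (.W i) (some .H) s G (ro w)).2‖ = 1} =
        ro ⁻¹' {w | w ∈ VV (.W i) (some .H) r ∧ ‖(FF θ (.W i) (some .H) s G w).2‖ = 1} := rfl
    change volume {w | w ∈ ro ⁻¹' VV (.W i) (some .H) r ∧
      ‖(FF θ (.W i) (some .H) s G (ro w)).2‖ = 1} = 0
    rw [e]
    exact hmp.quasiMeasurePreserving.preimage_null hnull

end G2
end Pool.Agent.FBM
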